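import Pool.Agent.H21.ASY.Stmts

/-!
# ASY: KAP, the Euler product of `∑ μ (e) gcd (K, e) / e ^ 2`
-/

set_option autoImplicit false

namespace Pool.ASY

open Finset MeasureTheory Pool.Agent.H98.ABCR Pool.SHA
open scoped ArithmeticFunction.Moebius

/-- The terms of the series. -/
noncomputable def kapF (K : ℕ) (e : ℕ) : ℝ := (μ e : ℝ) * (K.gcd e : ℝ) / (e : ℝ) ^ 2

theorem kapF_norm (K : ℕ) (e : ℕ) (hK : 0 < K) : ‖kapF K e‖ ≤ K * (1 / (e : ℝ) ^ 2) := by
  unfold kapF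
  rw [Real.norm_eq_abs, abs_div, abs_mul]
  have h1 : |(μ e : ℝ)| ≤ 1 := by
    have := ArithmeticFunction.abs_moebius_le_one (n := e)
    exact_mod_cast this
  have h2 : |(K.gcd e : ℝ)| ≤ K := by
    rw [abs_of_nonneg (by positivity)]
    exact_mod_cast Nat.gcd_le_left e hK
  have h3 : |(e : ℝ) ^ 2| = (e : ℝ) ^ 2 := abs_of_nonneg (by positivity)
  rw [h3, mul_one_div]
  apply div_le_div_of_nonneg_right _ (by positivity)
  calc |(μ e : ℝ)| * |(K.gcd e : ℝ)| ≤ 1 * K := by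
        apply mul_le_mul h1 h2 (abs_nonneg _) zero_le_one
    _ = K := one_mul _

theorem kapF_summable (K : ℕ) (hK : 0 < K) : Summable (fun e => ‖kapF K e‖) := by
  refine Summable.of_nonneg_of_le (fun _ => norm_nonneg _) (fun e => kapF_norm K e hK) ?_
  exact (Real.summable_one_div_nat_pow.2 one_lt_two).mul_left _

theorem kapF_local (K p : ℕ) (hp : p.Prime) :
    1 - (K.gcd p : ℝ) / (p : ℝ) ^ 2 = ∑' e, kapF K (p ^ e) := by
  rw [tsum_eq_sum (s := Finset.range 2)]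
  · rw [Finset.sum_range_succ, Finset.sum_range_one]
    simp only [kapF, pow_zero, pow_one, ArithmeticFunction.moebius_apply_prime hp]
    simp
    ring
  · intro e he
    have he' : 2 ≤ e := by
      by_contra hc
      exact he (Finset.mem_range.2 (by omega))
    simp only [kapF]
    rw [ArithmeticFunction.moebius_apply_prime_pow hp (by omega), if_neg (by omega)]
    simp

theorem kapF_hasProd (K : ℕ) (hK : 0 < K) :
    HasProd (fun p : Nat.Primes => 1 - (K.gcd p : ℝ) / ((p : ℕ) : ℝ) ^ 2) (∑' n, kapF K n) := by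
  have h := EulerProduct.eulerProduct_hasProd (f := kapF K) (by simp [kapF]) ?_
    (kapF_summable K hK) (by simp [kapF])
  · have e : (fun p : Nat.Primes => 1 - (K.gcd p : ℝ) / ((p : ℕ) : ℝ) ^ 2) =
        fun p : Nat.Primes => ∑' e, kapF K ((p : ℕ) ^ e) := by
      funext p
      exact kapF_local K p p.2
    rw [e]
    exact h
  · intro m n hmn
    simp only [kapF]
    rw [ArithmeticFunction.isMultiplicative_moebius.map_mul_of_coprime hmn,
      Nat.Coprime.gcd_mul K hmn]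
    push_cast
    rw [mul_pow]
    ring

theorem kap_prod_Icc (N : ℕ) : ∏ n ∈ Finset.Icc 2 (N + 2), (1 - 1 / (n : ℝ) ^ 2) =
    ((N : ℝ) + 3) / (2 * (N + 2)) := by
  induction N with
  | zero => norm_num
  | succ N ih =>
    have e : N + 1 + 2 = (N + 2) + 1 := by ring
    rw [e, ← Finset.insert_Icc_right_eq_Icc_add_one (by omega : 2 ≤ N + 2 + 1),
      Finset.prod_insert (by simp), ih]
    push_cast
    field_simp
    ring

theorem kap_prod_ge (s : Finset Nat.Primes) :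
    (1 / 2 : ℝ) ≤ ∏ p ∈ s, (1 - 1 / ((p : ℕ) : ℝ) ^ 2) := by
  obtain ⟨N, hN⟩ : ∃ N : ℕ, ∀ p ∈ s, (p : ℕ) ≤ N + 2 :=
    ⟨s.sup (fun p => (p : ℕ)), fun p hp =>
      (Finset.le_sup (f := fun p : Nat.Primes => (p : ℕ)) hp).trans (by omega)⟩
  have h1 : ∏ p ∈ s, (1 - 1 / ((p : ℕ) : ℝ) ^ 2) =
      ∏ n ∈ s.map ⟨fun p : Nat.Primes => (p : ℕ), Subtype.val_injective⟩,
        (1 - 1 / (n : ℝ) ^ 2) := by
    rw [Finset.prod_map]
    rfl
  have hsub : s.map ⟨fun p : Nat.Primes => (p : ℕ), Subtype.val_injective⟩ ⊆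
      Finset.Icc 2 (N + 2) := by
    intro n hn
    obtain ⟨p, hp, rfl⟩ := Finset.mem_map.1 hn
    exact Finset.mem_Icc.2 ⟨p.2.two_le, hN p hp⟩
  have hfac : ∀ n ∈ Finset.Icc 2 (N + 2), (0 : ℝ) ≤ 1 - 1 / (n : ℝ) ^ 2 ∧
      1 - 1 / (n : ℝ) ^ 2 ≤ 1 := by
    intro n hn
    have h2 : (2 : ℝ) ≤ n := by exact_mod_cast (Finset.mem_Icc.1 hn).1
    constructor
    · rw [sub_nonneg, div_le_one (by positivity)]
      nlinarith
    · have : (0 : ℝ) ≤ 1 / (n : ℝ) ^ 2 := by positivity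
      linarith
  have h2 := kap_prod_Icc N
  rw [← Finset.prod_sdiff hsub] at h2
  have h3 : ∏ n ∈ Finset.Icc 2 (N + 2) \ s.map ⟨fun p : Nat.Primes => (p : ℕ),
      Subtype.val_injective⟩, (1 - 1 / (n : ℝ) ^ 2) ≤ 1 :=
    Finset.prod_le_one (fun n hn => (hfac n (Finset.mem_sdiff.1 hn).1).1)
      fun n hn => (hfac n (Finset.mem_sdiff.1 hn).1).2
  have h4 : (0 : ℝ) ≤ ∏ n ∈ s.map ⟨fun p : Nat.Primes => (p : ℕ), Subtype.val_injective⟩,
      (1 - 1 / (n : ℝ) ^ 2) := Finset.prod_nonneg fun n hn => (hfac n (hsub hn)).1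
  have h5 : (1 / 2 : ℝ) ≤ ((N : ℝ) + 3) / (2 * (N + 2)) := by
    rw [div_le_div_iff₀ (by norm_num) (by positivity)]
    linarith
  rw [h1]
  nlinarith

theorem kap_prod_le (s : Finset Nat.Primes) :
    ∏ p ∈ s, (1 - 1 / ((p : ℕ) : ℝ) ^ 2) ≤ 1 := by
  refine Finset.prod_le_one (fun p _ => ?_) fun p _ => ?_
  · have h2 : (2 : ℝ) ≤ (p : ℕ) := by exact_mod_cast p.2.two_le
    rw [sub_nonneg, div_le_one (by positivity)]
    nlinarith
  · have : (0 : ℝ) ≤ 1 / ((p : ℕ) : ℝ) ^ 2 := by positivity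
    linarith

theorem kap_thm : S_KAP := by
  have h1 : HasProd (fun p : Nat.Primes => 1 - 1 / ((p : ℕ) : ℝ) ^ 2) (∑' n, kapF 1 n) := by
    have := kapF_hasProd 1 one_pos
    simpa using this
  have hk : kap0 = ∑' n, kapF 1 n := h1.tprod_eq
  rw [← hk] at h1
  have hpos : (1 / 2 : ℝ) ≤ kap0 := ge_of_tendsto' h1 kap_prod_ge
  have hle : kap0 ≤ 1 := le_of_tendsto' h1 kap_prod_le
  refine ⟨by linarith, hle, h1.multipliable, ?_, ?_⟩
  · intro d hd
    have hd' : (0 : ℝ) < d := by exact_mod_cast hd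
    have hP : 0 < ∏ p ∈ d.primeFactors, (1 + 1 / (p : ℝ))⁻¹ :=
      Finset.prod_pos fun p _ => by positivity
    have hP1 : ∏ p ∈ d.primeFactors, (1 + 1 / (p : ℝ))⁻¹ ≤ 1 := by
      refine Finset.prod_le_one (fun p _ => by positivity) fun p _ => ?_
      apply inv_le_one_of_one_le₀
      have : (0 : ℝ) ≤ 1 / (p : ℝ) := by positivity
      linarith
    unfold kap
    refine ⟨mul_pos (div_pos (by linarith) hd') hP, ?_⟩
    calc kap0 / d * ∏ p ∈ d.primeFactors, (1 + 1 / (p : ℝ))⁻¹ ≤ 1 / d * 1 := by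
          apply mul_le_mul _ hP1 hP.le (by positivity)
          exact div_le_div_of_nonneg_right hle hd'.le
      _ = 1 / d := mul_one _
  · intro K hK
    have hK' : (K : ℝ) ≠ 0 := by exact_mod_cast hK.ne'
    have hs : Summable (kapF K) := (kapF_summable K hK).of_norm
    have h2 := kapF_hasProd K hK
    have h3 : HasProd (fun p : Nat.Primes => if (p : ℕ) ∣ K then (1 + 1 / ((p : ℕ) : ℝ))⁻¹ else 1)
        (∏ p ∈ K.primeFactors, (1 + 1 / (p : ℝ))⁻¹) := by
      have h4 := hasProd_prod_of_ne_finset_one (L := SummationFilter.unconditional _)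
        (f := fun p : Nat.Primes => if (p : ℕ) ∣ K then (1 + 1 / ((p : ℕ) : ℝ))⁻¹ else 1)
        (s := K.primeFactors.subtype Nat.Prime) (fun p hp => by
          rw [if_neg]
          intro hc
          exact hp (Finset.mem_subtype.2 (Nat.mem_primeFactors.2 ⟨p.2, hc, hK.ne'⟩)))
      convert h4 using 1
      have h5 : ∏ p ∈ K.primeFactors, (1 + 1 / (p : ℝ))⁻¹ =
          ∏ p ∈ K.primeFactors, (if p ∣ K then (1 + 1 / (p : ℝ))⁻¹ else 1) :=
        Finset.prod_congr rfl fun p hp => (if_pos (Nat.dvd_of_mem_primeFactors hp)).symm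
      rw [h5]
      exact (Finset.prod_subtype_of_mem (p := Nat.Prime)
        (fun p : ℕ => if p ∣ K then (1 + 1 / (p : ℝ))⁻¹ else 1)
        fun p hp => Nat.prime_of_mem_primeFactors hp).symm
    have e6 : (fun p : Nat.Primes => (1 - 1 / ((p : ℕ) : ℝ) ^ 2) *
        (if (p : ℕ) ∣ K then (1 + 1 / ((p : ℕ) : ℝ))⁻¹ else 1)) =
        fun p : Nat.Primes => 1 - (K.gcd p : ℝ) / ((p : ℕ) : ℝ) ^ 2 := by
      funext p
      have hp0 : ((p : ℕ) : ℝ) ≠ 0 := by exact_mod_cast p.2.ne_zero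
      have hp1 : (1 + ((p : ℕ) : ℝ)) ≠ 0 := by positivity
      by_cases hd : (p : ℕ) ∣ K
      · rw [if_pos hd, Nat.gcd_eq_right hd]
        field_simp
        ring
      · have : K.gcd p = 1 := by
          rw [Nat.gcd_comm]
          exact (Nat.Prime.coprime_iff_not_dvd p.2).2 hd
        rw [if_neg hd, this]
        simp
    have h4 := (h1.mul h3).unique (e6 ▸ h2)
    have h5 : (K : ℝ) * kap K = ∑' n, kapF K n := by
      rw [← h4]
      unfold kap
      field_simp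
    rw [h5]
    exact hs.hasSum

end Pool.ASY
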