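import Pool.Agent.H21.ASY.Stmts

/-!
# ASY: BET, the area `AA` by Gamma integrals
-/

set_option autoImplicit false

namespace Pool.ASY

open Finset MeasureTheory Pool.Agent.H98.ABCR Pool.SHA
open scoped ArithmeticFunction.Moebius

theorem bet_gamma {a r : ℝ} (ha : 0 < a) (hr : 0 < r) :
    ∫⁻ t in Set.Ioi (0 : ℝ), ENNReal.ofReal (t ^ (a - 1) * Real.exp (-(r * t))) =
      ENNReal.ofReal ((1 / r) ^ a * Real.Gamma a) := by
  have h := Real.integral_rpow_mul_exp_neg_mul_Ioi ha hr
  have hpos : 0 < (1 / r) ^ a * Real.Gamma a :=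
    mul_pos (Real.rpow_pos_of_pos (by positivity) _) (Real.Gamma_pos_of_pos ha)
  have hi : Integrable (fun t : ℝ => t ^ (a - 1) * Real.exp (-(r * t)))
      (volume.restrict (Set.Ioi 0)) := by
    by_contra hc
    rw [integral_undef hc] at h
    exact hpos.ne h
  rw [← h, ofReal_integral_eq_lintegral_ofReal hi]
  refine (ae_restrict_iff' measurableSet_Ioi).2 (Filter.Eventually.of_forall fun t ht => ?_)
  have ht' : (0 : ℝ) < t := ht
  exact mul_nonneg (Real.rpow_nonneg ht'.le _) (Real.exp_pos _).le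

theorem bet_inner {R : ℝ} (hR : 0 ≤ R) :
    ∫⁻ x in Set.Ioc (0 : ℝ) R, ENNReal.ofReal x = ENNReal.ofReal (R ^ 2 / 2) := by
  have hi : IntegrableOn (fun x : ℝ => x) (Set.Ioc 0 R) volume :=
    (intervalIntegrable_iff_integrableOn_Ioc_of_le hR).1 intervalIntegral.intervalIntegrable_id
  rw [← ofReal_integral_eq_lintegral_ofReal hi]
  · congr 1
    rw [← intervalIntegral.integral_of_le hR, integral_id]
    ring
  · exact (ae_restrict_iff' measurableSet_Ioc).2
      (Filter.Eventually.of_forall fun t ht => ht.1.le)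

/-- The integrand of the area. -/
noncomputable def betG (x t : ℝ) : ENNReal :=
  if x ^ 3 * (t * (1 + t)) ≤ 1 then ENNReal.ofReal x else 0

theorem betG_meas : Measurable (Function.uncurry betG) := by
  have h : MeasurableSet {p : ℝ × ℝ | p.1 ^ 3 * (p.2 * (1 + p.2)) ≤ 1} :=
    measurableSet_le (by fun_prop) (by fun_prop)
  exact Measurable.ite h (by fun_prop) measurable_const

theorem bet_full_meas : MeasurableSet (full 1) := by
  unfold full
  refine MeasurableSet.inter (measurableSet_lt measurable_const measurable_fst) ?_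
  refine MeasurableSet.inter (measurableSet_lt measurable_const measurable_snd) ?_
  exact measurableSet_le (f := fun x : ℝ × ℝ => x.1 * x.2 * (x.1 + x.2)) (g := fun _ => (1 : ℝ))
    (by fun_prop) (by fun_prop)

theorem bet_slice (x : ℝ) (hx : 0 < x) :
    volume (Prod.mk x ⁻¹' full 1) = ∫⁻ t in Set.Ioi (0 : ℝ), betG x t := by
  have hT : MeasurableSet {t : ℝ | 0 < t ∧ x ^ 3 * (t * (1 + t)) ≤ 1} :=
    MeasurableSet.inter (measurableSet_lt measurable_const measurable_id)
      (measurableSet_le (f := fun t : ℝ => x ^ 3 * (t * (1 + t))) (g := fun _ => (1 : ℝ))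
        (by fun_prop) (by fun_prop))
  have e1 : Prod.mk x ⁻¹' full 1 = (fun y => x⁻¹ * y) ⁻¹'
      {t : ℝ | 0 < t ∧ x ^ 3 * (t * (1 + t)) ≤ 1} := by
    ext y
    simp only [full, Set.mem_preimage, Set.mem_ofPred_eq]
    have e2 : x ^ 3 * (x⁻¹ * y * (1 + x⁻¹ * y)) = x * y * (x + y) := by
      field_simp
    rw [e2]
    constructor
    · rintro ⟨-, h2, h3⟩
      exact ⟨by positivity, h3⟩
    · rintro ⟨h2, h3⟩
      exact ⟨hx, (pos_iff_pos_of_mul_pos h2).1 (by positivity), h3⟩
  rw [e1, Real.volume_preimage_mul_left (inv_ne_zero hx.ne'), inv_inv, abs_of_pos hx,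
    ← lintegral_indicator_one hT, ← lintegral_const_mul' _ _ ENNReal.ofReal_ne_top,
    ← lintegral_indicator measurableSet_Ioi]
  refine lintegral_congr fun t => ?_
  by_cases ht : 0 < t
  · rw [Set.indicator_of_mem (show t ∈ Set.Ioi (0 : ℝ) from ht)]
    unfold betG
    by_cases h : x ^ 3 * (t * (1 + t)) ≤ 1
    · rw [if_pos h, Set.indicator_of_mem (by exact ⟨ht, h⟩)]
      simp
    · rw [if_neg h, Set.indicator_of_notMem (fun hc => h hc.2)]
      simp
  · rw [Set.indicator_of_notMem (show t ∉ Set.Ioi (0 : ℝ) from ht),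
      Set.indicator_of_notMem (fun hc => ht hc.1)]
    simp

theorem bet_col (t : ℝ) (ht : 0 < t) :
    ∫⁻ x in Set.Ioi (0 : ℝ), betG x t =
      ENNReal.ofReal ((t * (1 + t)) ^ (-(2 / 3) : ℝ) / 2) := by
  have hw : 0 < t * (1 + t) := by positivity
  have hR : 0 ≤ (t * (1 + t)) ^ (-(1 / 3) : ℝ) := Real.rpow_nonneg hw.le _
  have e1 : ((t * (1 + t)) ^ (-(1 / 3) : ℝ)) ^ 2 = (t * (1 + t)) ^ (-(2 / 3) : ℝ) := by
    rw [← Real.rpow_natCast, ← Real.rpow_mul hw.le]
    norm_num
  have e3 : ((t * (1 + t)) ^ (-(1 / 3) : ℝ)) ^ 3 = (t * (1 + t))⁻¹ := by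
    rw [← Real.rpow_natCast, ← Real.rpow_mul hw.le, ← Real.rpow_neg_one]
    norm_num
  rw [← e1, ← bet_inner hR, ← lintegral_indicator measurableSet_Ioi,
    ← lintegral_indicator measurableSet_Ioc]
  refine lintegral_congr fun x => ?_
  by_cases hx : 0 < x
  · rw [Set.indicator_of_mem (show x ∈ Set.Ioi (0 : ℝ) from hx)]
    unfold betG
    have key : x ^ 3 * (t * (1 + t)) ≤ 1 ↔ x ≤ (t * (1 + t)) ^ (-(1 / 3) : ℝ) := by
      rw [← pow_le_pow_iff_left₀ hx.le hR (n := 3) (by norm_num), e3, inv_eq_one_div,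
        le_div_iff₀ hw]
    by_cases h : x ≤ (t * (1 + t)) ^ (-(1 / 3) : ℝ)
    · rw [if_pos (key.2 h), Set.indicator_of_mem (by exact ⟨hx, h⟩)]
    · rw [if_neg (fun hc => h (key.1 hc)), Set.indicator_of_notMem (fun hc => h hc.2)]
  · rw [Set.indicator_of_notMem (show x ∉ Set.Ioi (0 : ℝ) from hx),
      Set.indicator_of_notMem (fun hc => hx hc.1)]

theorem bet_area : volume (full 1) = ∫⁻ t in Set.Ioi (0 : ℝ),
    ENNReal.ofReal ((t * (1 + t)) ^ (-(2 / 3) : ℝ) / 2) := by
  rw [Measure.volume_eq_prod, Measure.prod_apply bet_full_meas]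
  have h1 : ∫⁻ x : ℝ, volume (Prod.mk x ⁻¹' full 1) =
      ∫⁻ x in Set.Ioi (0 : ℝ), ∫⁻ t in Set.Ioi (0 : ℝ), betG x t := by
    rw [← lintegral_indicator measurableSet_Ioi]
    refine lintegral_congr fun x => ?_
    by_cases hx : 0 < x
    · rw [Set.indicator_of_mem (show x ∈ Set.Ioi (0 : ℝ) from hx), bet_slice x hx]
    · rw [Set.indicator_of_notMem (show x ∉ Set.Ioi (0 : ℝ) from hx)]
      have : Prod.mk x ⁻¹' full 1 = ∅ := by
        ext y
        simp only [full, Set.mem_preimage, Set.mem_ofPred_eq, Set.mem_empty_iff_false, iff_false]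
        exact fun h => hx h.1
      rw [this, measure_empty]
  rw [h1, lintegral_lintegral_swap betG_meas.aemeasurable]
  exact setLIntegral_congr_fun measurableSet_Ioi fun t ht => bet_col t ht

theorem bet_thm : S_BET := by
  have hG2 : 0 < Real.Gamma (2 / 3) := Real.Gamma_pos_of_pos (by norm_num)
  have hG1 : 0 < Real.Gamma (1 / 3) := Real.Gamma_pos_of_pos (by norm_num)
  have key : volume (full 1) * ENNReal.ofReal (Real.Gamma (2 / 3)) =
      ENNReal.ofReal (Real.Gamma (1 / 3) / 2 * Real.Gamma (1 / 3)) := by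
    rw [bet_area, ← lintegral_mul_const' _ _ ENNReal.ofReal_ne_top]
    have h1 : ∫⁻ t in Set.Ioi (0 : ℝ),
        ENNReal.ofReal ((t * (1 + t)) ^ (-(2 / 3) : ℝ) / 2) *
          ENNReal.ofReal (Real.Gamma (2 / 3)) =
        ∫⁻ t in Set.Ioi (0 : ℝ), ∫⁻ r in Set.Ioi (0 : ℝ),
          ENNReal.ofReal (t ^ (-(2 / 3) : ℝ) / 2) *
            ENNReal.ofReal (r ^ ((2 / 3 : ℝ) - 1) * Real.exp (-((1 + t) * r))) := by
      refine setLIntegral_congr_fun measurableSet_Ioi fun t ht => ?_
      have ht' : (0 : ℝ) < t := ht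
      have ht1 : (0 : ℝ) < 1 + t := by linarith
      show _ = _
      rw [lintegral_const_mul' _ _ ENNReal.ofReal_ne_top, bet_gamma (by norm_num) ht1,
        ← ENNReal.ofReal_mul (by positivity), ← ENNReal.ofReal_mul (by positivity)]
      congr 1
      rw [Real.mul_rpow ht'.le ht1.le, one_div (1 + t), Real.inv_rpow ht1.le,
        Real.rpow_neg ht1.le]
      ring
    rw [h1, lintegral_lintegral_swap]
    swap
    · refine Measurable.aemeasurable ?_
      fun_prop
    have h2 : ∫⁻ r in Set.Ioi (0 : ℝ), ∫⁻ t in Set.Ioi (0 : ℝ),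
          ENNReal.ofReal (t ^ (-(2 / 3) : ℝ) / 2) *
            ENNReal.ofReal (r ^ ((2 / 3 : ℝ) - 1) * Real.exp (-((1 + t) * r))) =
        ∫⁻ r in Set.Ioi (0 : ℝ), ENNReal.ofReal (Real.Gamma (1 / 3) / 2) *
          ENNReal.ofReal (r ^ ((1 / 3 : ℝ) - 1) * Real.exp (-(1 * r))) := by
      refine setLIntegral_congr_fun measurableSet_Ioi fun r hr => ?_
      have hr' : (0 : ℝ) < r := hr
      show _ = _
      have h3 : ∫⁻ t in Set.Ioi (0 : ℝ), ENNReal.ofReal (t ^ (-(2 / 3) : ℝ) / 2) *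
            ENNReal.ofReal (r ^ ((2 / 3 : ℝ) - 1) * Real.exp (-((1 + t) * r))) =
          ∫⁻ t in Set.Ioi (0 : ℝ),
            ENNReal.ofReal (r ^ ((2 / 3 : ℝ) - 1) * Real.exp (-r) / 2) *
            ENNReal.ofReal (t ^ ((1 / 3 : ℝ) - 1) * Real.exp (-(r * t))) := by
        refine setLIntegral_congr_fun measurableSet_Ioi fun t ht => ?_
        have ht' : (0 : ℝ) < t := ht
        show _ = _
        rw [← ENNReal.ofReal_mul (by positivity), ← ENNReal.ofReal_mul (by positivity)]
        congr 1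
        have e1 : Real.exp (-((1 + t) * r)) = Real.exp (-r) * Real.exp (-(r * t)) := by
          rw [← Real.exp_add]; congr 1; ring
        have e2 : ((1 / 3 : ℝ) - 1) = -(2 / 3) := by norm_num
        rw [e1, e2]
        ring
      rw [h3, lintegral_const_mul' _ _ ENNReal.ofReal_ne_top, bet_gamma (by norm_num) hr',
        ← ENNReal.ofReal_mul (by positivity), ← ENNReal.ofReal_mul (by positivity)]
      congr 1
      have e3 : r ^ ((1 / 3 : ℝ) - 1) = r ^ ((2 / 3 : ℝ) - 1) * (1 / r) ^ (1 / 3 : ℝ) := by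
        rw [one_div r, Real.inv_rpow hr'.le, ← Real.rpow_neg hr'.le, ← Real.rpow_add hr']
        norm_num
      rw [e3, one_mul]
      ring
    rw [h2, lintegral_const_mul' _ _ ENNReal.ofReal_ne_top, bet_gamma (by norm_num) one_pos,
      ← ENNReal.ofReal_mul (by positivity)]
    congr 1
    simp
  have h := congrArg ENNReal.toReal key
  rw [ENNReal.toReal_mul, ENNReal.toReal_ofReal hG2.le, ENNReal.toReal_ofReal (by positivity)] at h
  unfold S_BET AA
  rw [eq_div_iff (by positivity)]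
  linarith

end Pool.ASY
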